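import Pool.Agent.helper35.BQ.Spec

/-! # bq:RDB (MP_baa4d7_al): the reduction to a reduced quotient and a block with `E[B] = G` -/

set_option autoImplicit false

open Pool.Agent.helper58.DC Pool.Agent.DI Pool.Agent.DR Pool.Agent.NQ

namespace Pool.Agent.BQ

theorem RDB_aux (hZRO : ZRO_stmt) (hNRM : NRM_stmt) (hRIV : RIV_stmt) (hFRS : FRS_stmt)
    (hD13 : D13_stmt) (hRE : RE_stmt) (hST : ST_stmt) (hFINX : FINX_stmt) (p : ℕ) [Fact p.Prime]
    (M : Ideal (integralClosure ℤ ℂ)) (hM : M.IsMaximal) (hpM : (p : integralClosure ℤ ℂ) ∈ M)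
    (𝒳 : (E : Type) → [Group E] → Prop) (hCl : ClX 𝒳) (hPr : PrX 𝒳) (hCe : CeX p 𝒳)
    (𝒞 : (A : Type) → [Group A] → Prop) (h𝒞 : ClX 𝒞)
    (hbase : ∀ (G E A : Type) [Group G] [Group E] [Group A] [Finite G] [Finite E]
      (X : Extension G E A), 𝒳 E → 𝒞 A → RedX p A → IsOp p (⊤ : Subgroup G) ⊥ → ∀ χ ∈ Irr G,
      PosDefect p M χ → AB X M χ = ⊤ → AI X M χ = ⊥ → ∀ d : ℤ, altSum X p M χ d ⊤ = 0) :
    ∀ (n : ℕ) (A : Type) [Group A] [Finite A], Nat.card A = n → 𝒞 A → InvX p M 𝒳 A := by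
  intro n
  induction n using Nat.strong_induction_on with
  | _ n IH =>
  intro A _ _ hn hA
  by_cases hR : RedX p A
  · intro G E A₀ _ _ _ _ _ X hE hiso hop χ hχ hPD d U
    obtain ⟨iso⟩ := hiso
    have hfA : Finite A₀ := Finite.of_surjective X.proj X.proj_surjective
    have hRed : RedX p A₀ := hRIV p A A₀ ⟨iso.symm⟩ hR
    have hcA : 𝒞 A₀ := h𝒞.img A A₀ iso.symm.toMonoidHom iso.symm.surjective hA
    have hcard : Nat.card A₀ = n := by rw [← hn]; exact Nat.card_congr iso.toEquiv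
    have hsub : ∀ V : Subgroup A₀, V ≠ ⊤ → ∀ d' : ℤ,
        ∑ᶠ W : {W : Subgroup A₀ // V ≤ W}, altSum X p M χ d' W.1 = 0 := by
      intro V hV d'
      rw [← hRE G E A₀ X p M χ hχ d' V]
      have hlt : Nat.card V < n := by
        rw [← hcard]
        refine lt_of_le_of_ne (Nat.card_le_card_of_injective _ V.subtype_injective) fun h => hV ?_
        exact Subgroup.eq_top_of_card_eq V h
      exact IH _ hlt V rfl (h𝒞.sub _ V hcA) G (V.comap X.proj) V (resE X V) (hCl.sub _ _ hE)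
        ⟨MulEquiv.refl _⟩ hop χ hχ hPD d' ⊤
    have htop : altSum X p M χ d ⊤ = 0 := by
      by_contra hne
      have hStab : Stable X M χ := hST G E A₀ X p M χ hχ d hne
      have hAB : AB X M χ = ⊤ := by
        rw [eq_top_iff]
        intro a _
        obtain ⟨e, he⟩ := X.proj_surjective a
        exact ⟨e, he, hStab e⟩
      by_cases hAI : AI X M χ = ⊥
      · exact hne (hbase G E A₀ X hE hcA hRed hop χ hχ hPD hAB hAI d)
      · have hnor : (AI X M χ).Normal := by
          refine ⟨fun w hw v => ?_⟩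
          exact hNRM G E A₀ X M χ hχ v (hAB ▸ Subgroup.mem_top v) w hw
        obtain ⟨U', hU', hsup⟩ := hFRS p A₀ hRed (AI X M χ) hnor hAI
        have h0 := hsub U' hU' d
        rw [finsum_eq_single _ (⟨⊤, le_top⟩ : {W : Subgroup A₀ // U' ≤ W})] at h0
        · exact hne h0
        · intro W hW
          refine (hZRO G E A₀ X p M hM hpM χ hχ d W.1 fun h => hW ?_).2
          apply Subtype.ext
          rw [eq_top_iff, ← hsup]
          exact sup_le W.2 h.1
    refine hD13 A₀ (fun V => altSum X p M χ d V) (fun V => ?_) U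
    by_cases hV : V = ⊤
    · subst hV
      rw [FST_top (fun V => altSum X p M χ d V)]
      exact htop
    · exact hsub V hV d
  · refine (hFINX p M hM hpM 𝒳 hCl).2.2 hPr hCe (fun B _ => Sec B A) ⟨?_, ?_⟩ ?_ A (Sec.refl A)
    · intro E _ H hE
      exact Sec.trans (Sec.sub H) hE
    · intro E F _ _ f hf hE
      refine Sec.trans ⟨⊤, f.comp (⊤ : Subgroup E).subtype, fun y => ?_⟩ hE
      obtain ⟨x, hx⟩ := hf y
      exact ⟨⟨x, Subgroup.mem_top x⟩, hx⟩
    · intro B _ _ hB hRB
      obtain ⟨H, f, hf⟩ := hB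
      have h1 : Nat.card B ≤ Nat.card H := Nat.card_le_card_of_surjective f hf
      have h2 : Nat.card H ≤ Nat.card A := Nat.card_le_card_of_injective _ H.subtype_injective
      rcases lt_or_eq_of_le (h1.trans h2) with hlt | heq
      · exact IH _ (hn ▸ hlt) B rfl (h𝒞.img _ _ f hf (h𝒞.sub _ H hA))
      · exfalso
        apply hR
        have h3 : Nat.card H = Nat.card A := le_antisymm h2 (heq ▸ h1)
        have hH : H = ⊤ := Subgroup.eq_top_of_card_eq H h3
        have h4 : Nat.card H = Nat.card B := h3.trans heq.symm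
        have hb : Function.Bijective f := by
          have : Fintype H := Fintype.ofFinite H
          have : Fintype B := Fintype.ofFinite B
          rw [Fintype.bijective_iff_surjective_and_card]
          refine ⟨hf, ?_⟩
          rw [← Nat.card_eq_fintype_card, ← Nat.card_eq_fintype_card]
          exact h4
        refine hRIV p B A ⟨(MulEquiv.ofBijective f hb).symm.trans ?_⟩ hRB
        exact (MulEquiv.subgroupCongr hH).trans Subgroup.topEquiv

theorem RDB (hZRO : ZRO_stmt) (hNRM : NRM_stmt) (hRIV : RIV_stmt) (hFRS : FRS_stmt)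
    (hD13 : D13_stmt) (hRE : RE_stmt) (hST : ST_stmt) (hFINX : FINX_stmt) : RDB_stmt := by
  intro p _ M hM hpM 𝒳 hCl hPr hCe 𝒞 h𝒞 hbase A _ _ hA
  exact RDB_aux hZRO hNRM hRIV hFRS hD13 hRE hST hFINX p M hM hpM 𝒳 hCl hPr hCe 𝒞 h𝒞 hbase
    (Nat.card A) A rfl hA

end Pool.Agent.BQ
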