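import Pool.Agent.helper7.BQ.Spec
import Pool.Agent.helper85.TG.VA2

set_option autoImplicit false

namespace Pool.Agent.BQ

open Finset ArithmeticFunction MeasureTheory
open Pool.Agent.helper74.TG (ee gb)
open Pool.Agent.CH (nit ph mu2 DPb BLb eU PP dB)

/-- sums over divisors in a window as double sums -/
private theorem MINL_swp (H : ℕ → ℕ → ℂ) (X B y : ℕ) (hX : y + B ≤ X) :
    ∑ n ∈ Ioc y (y + B), ∑ d ∈ n.divisors, H d (n / d) =
      ∑ d ∈ Ioc 0 X, ∑ k ∈ Ioc 0 X, if y < d * k ∧ d * k ≤ y + B then H d k else 0 := by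
  have h1 : ∑ d ∈ Ioc 0 X, ∑ k ∈ Ioc 0 X, (if y < d * k ∧ d * k ≤ y + B then H d k else 0) =
      ∑ p ∈ (Ioc 0 X ×ˢ Ioc 0 X).filter (fun p : ℕ × ℕ => y < p.1 * p.2 ∧ p.1 * p.2 ≤ y + B),
        H p.1 p.2 := by
    rw [sum_filter, sum_product]
  rw [h1]
  have h2 : ∀ p ∈ (Ioc 0 X ×ˢ Ioc 0 X).filter (fun p : ℕ × ℕ => y < p.1 * p.2 ∧ p.1 * p.2 ≤ y + B),
      p.1 * p.2 ∈ Ioc y (y + B) := by
    intro p hp
    rw [mem_filter] at hp
    exact mem_Ioc.2 hp.2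
  rw [← sum_fiberwise_of_maps_to h2]
  refine sum_congr rfl fun n hn => ?_
  rw [mem_Ioc] at hn
  rw [← Nat.sum_divisorsAntidiagonal (f := fun d k => H d k)]
  refine sum_congr ?_ fun _ _ => rfl
  ext p
  rw [Nat.mem_divisorsAntidiagonal, mem_filter, mem_filter, mem_product, mem_Ioc, mem_Ioc]
  constructor
  · rintro ⟨hp, hn0⟩
    have hp1 : 0 < p.1 := by
      rcases Nat.eq_zero_or_pos p.1 with h | h
      · rw [h, Nat.zero_mul] at hp; omega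
      · exact h
    have hp2 : 0 < p.2 := by
      rcases Nat.eq_zero_or_pos p.2 with h | h
      · rw [h, Nat.mul_zero] at hp; omega
      · exact h
    have h3 : p.1 ≤ p.1 * p.2 := Nat.le_mul_of_pos_right _ hp2
    have h4 : p.2 ≤ p.1 * p.2 := Nat.le_mul_of_pos_left _ hp1
    refine ⟨⟨⟨⟨hp1, by omega⟩, ⟨hp2, by omega⟩⟩, by omega, by omega⟩, hp⟩
  · rintro ⟨_, hp⟩
    exact ⟨hp, by omega⟩

/-- the inner sums as sums over intervals -/
private theorem MINL_in (g : ℕ → ℂ) (X B y d : ℕ) (hd : 0 < d) (hX : y + B ≤ X) :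
    ∑ k ∈ Ioc 0 X, (if y < d * k ∧ d * k ≤ y + B then g k else 0) =
      ∑ k ∈ Ioc (y / d) ((y + B) / d), g k := by
  rw [← sum_filter]
  refine sum_congr ?_ fun _ _ => rfl
  ext k
  rw [mem_filter, mem_Ioc, mem_Ioc, Nat.div_lt_iff_lt_mul hd, Nat.le_div_iff_mul_le hd,
    Nat.mul_comm k d]
  constructor
  · rintro ⟨_, h⟩
    exact h
  · intro h
    have hk : 0 < k := by
      rcases Nat.eq_zero_or_pos k with h0 | h0
      · rw [h0, Nat.mul_zero] at h; omega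
      · exact h0
    have h4 : k ≤ d * k := Nat.le_mul_of_pos_left _ hd
    exact ⟨⟨hk, by omega⟩, h⟩

/-- Abel summation with a monotone weight -/
private theorem MINL_abel (z : ℕ → ℂ) (w : ℕ → ℝ) (a : ℕ) (G : ℝ) (hw : ∀ i j, a ≤ i → i ≤ j → w i ≤ w j)
    (hw0 : 0 ≤ w a) : ∀ b, a ≤ b → (∀ j, a ≤ j → j ≤ b → ‖∑ k ∈ Ioc a j, z k‖ ≤ G) →
    ‖∑ k ∈ Ioc a b, (w k : ℂ) * z k‖ ≤ 2 * w b * G := by
  have key : ∀ b, a ≤ b → (∀ j, a ≤ j → j ≤ b → ‖∑ k ∈ Ioc a j, z k‖ ≤ G) →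
      ‖∑ k ∈ Ioc a b, (w k : ℂ) * z k - (w b : ℂ) * ∑ k ∈ Ioc a b, z k‖ ≤ (w b - w a) * G := by
    intro b hab
    induction b, hab using Nat.le_induction with
    | base => intro _; simp
    | succ b hb ih =>
      intro h
      have h1 := ih fun j hj hjb => h j hj (by omega)
      have h2 := h b hb (by omega)
      have h3 : w b ≤ w (b + 1) := hw b (b + 1) hb (by omega)
      have e1 : Ioc a (b + 1) = insert (b + 1) (Ioc a b) := by
        ext k; simp only [mem_Ioc, mem_insert]; omega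
      have e2 : b + 1 ∉ Ioc a b := by simp
      rw [e1, sum_insert e2, sum_insert e2]
      have e3 : (w (b + 1) : ℂ) * z (b + 1) + ∑ k ∈ Ioc a b, (w k : ℂ) * z k -
          (w (b + 1) : ℂ) * (z (b + 1) + ∑ k ∈ Ioc a b, z k) =
          (∑ k ∈ Ioc a b, (w k : ℂ) * z k - (w b : ℂ) * ∑ k ∈ Ioc a b, z k) +
            ((w b - w (b + 1) : ℝ) : ℂ) * ∑ k ∈ Ioc a b, z k := by
        push_cast; ring
      rw [e3]
      refine (norm_add_le _ _).trans ?_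
      rw [norm_mul, Complex.norm_real, Real.norm_eq_abs, abs_of_nonpos (by linarith)]
      have h4 : -(w b - w (b + 1)) * ‖∑ k ∈ Ioc a b, z k‖ ≤ -(w b - w (b + 1)) * G :=
        mul_le_mul_of_nonneg_left h2 (by linarith)
      nlinarith
  intro b hab h
  have h1 := key b hab h
  have h2 := h b hab le_rfl
  have hG : 0 ≤ G := (norm_nonneg _).trans h2
  have hb : w a ≤ w b := hw a b le_rfl hab
  have h3 : ‖(w b : ℂ) * ∑ k ∈ Ioc a b, z k‖ ≤ w b * G := by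
    rw [norm_mul, Complex.norm_real, Real.norm_eq_abs, abs_of_nonneg (by linarith)]
    exact mul_le_mul_of_nonneg_left h2 (by linarith)
  have h4 : ∑ k ∈ Ioc a b, (w k : ℂ) * z k =
      (∑ k ∈ Ioc a b, (w k : ℂ) * z k - (w b : ℂ) * ∑ k ∈ Ioc a b, z k) +
        (w b : ℂ) * ∑ k ∈ Ioc a b, z k := by ring
  rw [h4]
  refine (norm_add_le _ _).trans ?_
  nlinarith [mul_nonneg hw0 hG]

/-- one linear sum -/
private theorem MINL_lin (w : ℕ → ℝ) (hw : ∀ i j, i ≤ j → w i ≤ w j) (hw0 : 0 ≤ w 0) (B y d : ℕ)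
    (hd : 0 < d) (hdB : d ≤ B) (G : ℝ) (hG : w ((y + B) / d) ≤ G) (α : ℝ) :
    ‖∑ k ∈ Ioc (y / d) ((y + B) / d), (w k : ℂ) * ee (((d * k : ℕ) : ℝ) * α)‖ ≤
      2 * G * gb (2 * B / d) (d * α) := by
  have hd0 : (0 : ℝ) < d := by exact_mod_cast hd
  have hab : y / d ≤ (y + B) / d := Nat.div_le_div_right (Nat.le_add_right _ _)
  have hlen : (((y + B) / d : ℕ) : ℝ) - ((y / d : ℕ) : ℝ) ≤ 2 * B / d := by
    have h1 : (((y + B) / d : ℕ) : ℝ) ≤ ((y + B : ℕ) : ℝ) / d := Nat.cast_div_le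
    have h2 : (y : ℝ) / d < ((y / d : ℕ) : ℝ) + 1 := by
      rw [div_lt_iff₀ hd0]
      have h3 := Nat.lt_mul_div_succ y hd
      have h4 : (y : ℝ) < ((d * (y / d + 1) : ℕ) : ℝ) := by exact_mod_cast h3
      push_cast at h4
      linarith
    have h5 : (1 : ℝ) ≤ B / d := by
      rw [le_div_iff₀ hd0]
      have : (d : ℝ) ≤ B := by exact_mod_cast hdB
      linarith
    push_cast at h1
    have h6 : ((y : ℝ) + B) / d = y / d + B / d := by ring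
    have h7 : 2 * (B : ℝ) / d = B / d + B / d := by ring
    linarith
  have hpart : ∀ j, y / d ≤ j → j ≤ (y + B) / d →
      ‖∑ k ∈ Ioc (y / d) j, ee (((d * k : ℕ) : ℝ) * α)‖ ≤ gb (2 * B / d) (d * α) := by
    intro j hj hj2
    have e : ∑ k ∈ Ioc (y / d) j, ee (((d * k : ℕ) : ℝ) * α) =
        ∑ k ∈ Ioc (y / d) j, ee ((k : ℝ) * (d * α)) := by
      refine sum_congr rfl fun k _ => ?_
      congr 1
      push_cast
      ring
    rw [e]
    refine (Pool.Agent.helper74.TG.geom_bound _ _ hj _).trans ?_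
    have hj3 : (j : ℝ) ≤ (((y + B) / d : ℕ) : ℝ) := by exact_mod_cast hj2
    have hj4 : (((y / d : ℕ) : ℝ)) ≤ j := by exact_mod_cast hj
    exact Pool.Agent.helper74.TG.gb_mono _ _ _ (by linarith) (by linarith)
  have h1 := MINL_abel (fun k => ee (((d * k : ℕ) : ℝ) * α)) w (y / d) (gb (2 * B / d) (d * α))
    (fun i j _ hij => hw i j hij) (hw0.trans (hw _ _ (Nat.zero_le _))) _ hab hpart
  refine h1.trans ?_
  have hg : 0 ≤ gb (2 * B / d) (d * α) := (norm_nonneg _).trans (hpart _ le_rfl hab)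
  nlinarith

/-- the linear sums together -/
private theorem MINL_T1 : ∃ C : ℝ, 0 < C ∧ ∀ (w c : ℕ → ℝ) (E G : ℝ) (B y D X q : ℕ) (α : ℝ) (a : ℤ),
    (∀ i j, i ≤ j → w i ≤ w j) → 0 ≤ w 0 → w X ≤ G → (∀ d ∈ Ioc 0 D, |c d| ≤ E) → 0 < q → 0 < D →
    D ≤ B → y + B ≤ X → IsCoprime a (q : ℤ) → |α - a / q| ≤ 1 / (q : ℝ) ^ 2 →
    ‖∑ n ∈ Ioc y (y + B), ((∑ d ∈ n.divisors.filter (fun d => d ≤ D), c d * w (n / d) : ℝ) : ℂ) *
      ee (n * α)‖ ≤ 2 * G * E * (C * (2 * B / q + D + q) * (1 + Real.log (q * D))) := by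
  obtain ⟨C, hC, hT⟩ := Pool.Agent.helper74.TG.typeI_sum
  refine ⟨C, hC, ?_⟩
  intro w c E G B y D X q α a hw hw0 hG hc hq hD hDB hX hcop hα
  have hE : 0 ≤ E := (abs_nonneg _).trans (hc 1 (mem_Ioc.2 ⟨by norm_num, hD⟩))
  have hG0 : 0 ≤ G := (hw0.trans (hw 0 X (Nat.zero_le _))).trans hG
  have e1 : ∑ n ∈ Ioc y (y + B), ((∑ d ∈ n.divisors.filter (fun d => d ≤ D), c d * w (n / d) : ℝ) : ℂ) *
      ee (n * α) = ∑ n ∈ Ioc y (y + B), ∑ d ∈ n.divisors,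
        (fun d k : ℕ => if d ≤ D then (c d : ℂ) * ((w k : ℂ) * ee (((d * k : ℕ) : ℝ) * α)) else 0)
          d (n / d) := by
    refine sum_congr rfl fun n _ => ?_
    push_cast
    rw [sum_mul, sum_filter]
    refine sum_congr rfl fun d hd => ?_
    have h1 : d * (n / d) = n := Nat.mul_div_cancel' (Nat.dvd_of_mem_divisors hd)
    by_cases h : d ≤ D
    · simp only [h, if_true]
      rw [← Nat.cast_mul, h1]
      ring
    · simp only [h, if_false]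
  rw [e1, MINL_swp (fun d k : ℕ => if d ≤ D then (c d : ℂ) * ((w k : ℂ) * ee (((d * k : ℕ) : ℝ) * α)) else 0)
    X B y hX]
  refine (norm_sum_le _ _).trans ?_
  have h2 : ∀ d ∈ Ioc 0 X, ‖∑ k ∈ Ioc 0 X, (if y < d * k ∧ d * k ≤ y + B then
      (fun d k : ℕ => if d ≤ D then (c d : ℂ) * ((w k : ℂ) * ee (((d * k : ℕ) : ℝ) * α)) else 0) d k
        else 0)‖ ≤ if d ≤ D then 2 * G * E * gb (2 * B / d) (d * α) else 0 := by
    intro d hd
    have hd0 : 0 < d := (mem_Ioc.1 hd).1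
    rw [MINL_in _ X B y d hd0 hX]
    by_cases h : d ≤ D
    · simp only [h, if_true]
      rw [← mul_sum, norm_mul, Complex.norm_real, Real.norm_eq_abs]
      have h3 := MINL_lin w hw hw0 B y d hd0 (by omega) G
        ((hw _ _ ((Nat.div_le_self _ _).trans hX)).trans hG) α
      have h4 := hc d (mem_Ioc.2 ⟨hd0, h⟩)
      calc |c d| * _ ≤ E * (2 * G * gb (2 * B / d) (d * α)) :=
            mul_le_mul h4 h3 (norm_nonneg _) hE
        _ = _ := by ring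
    · simp only [h, if_false, sum_const_zero, norm_zero, le_refl]
  refine (sum_le_sum h2).trans ?_
  rw [← sum_filter]
  have h5 : (Ioc 0 X).filter (fun d => d ≤ D) = Ioc 0 D := by
    ext d
    simp only [mem_filter, mem_Ioc]
    omega
  rw [h5, ← mul_sum]
  have hB1 : (1 : ℝ) ≤ B := by exact_mod_cast (show 1 ≤ B by omega)
  exact mul_le_mul_of_nonneg_left (hT α a q D (2 * B) hq hD (by linarith) hcop hα) (by positivity)

/-- the part of the bilinear sum with the given first variable -/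
private noncomputable def MINL_F (a b : ℕ → ℂ) (y B X : ℕ) (α : ℝ) (m : ℕ) : ℂ :=
  ∑ k ∈ Ioc 0 X, if y < m * k ∧ m * k ≤ y + B then a m * b k * ee (((m * k : ℕ) : ℝ) * α) else 0

private theorem MINL_BW (a b : ℕ → ℂ) (M Y B y : ℕ) (α : ℝ) (hM : 1 ≤ M) (hy : y + B ≤ 3 * Y) :
    BW a b M Y B y α = ∑ m ∈ Ioc M (2 * M), MINL_F a b y B (3 * Y) α m := by
  unfold BW
  refine sum_congr rfl fun m hm => ?_
  rw [mem_Ioc] at hm
  unfold MINL_F
  rw [sum_filter]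
  refine sum_subset ?_ ?_
  · intro k hk
    rw [mem_Ioc] at hk ⊢
    exact ⟨hk.1, hk.2.trans (Nat.div_le_self _ _)⟩
  · intro k hk hk2
    rw [mem_Ioc] at hk
    rw [mem_Ioc, not_and, not_le] at hk2
    have h1 := hk2 hk.1
    rw [Nat.div_lt_iff_lt_mul (by omega)] at h1
    have h2 : k * M ≤ m * k := by
      rw [Nat.mul_comm k M]
      exact Nat.mul_le_mul_right _ (by omega)
    rw [if_neg]
    rintro ⟨_, h3⟩
    omega

private theorem MINL_dy (f : ℕ → ℂ) (U : ℕ) : ∀ I : ℕ,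
    ∑ i ∈ range I, ∑ m ∈ Ioc (2 ^ i * U) (2 * (2 ^ i * U)), f m = ∑ m ∈ Ioc U (2 ^ I * U), f m := by
  intro I
  induction I with
  | zero => simp
  | succ I ih =>
    rw [sum_range_succ, ih]
    have h1 : 2 ^ (I + 1) * U = 2 * (2 ^ I * U) := by ring
    rw [h1]
    have h2 : U ≤ 2 ^ I * U := Nat.le_mul_of_pos_left _ (Nat.two_pow_pos I)
    rw [← sum_union]
    · congr 1
      ext m
      simp only [mem_union, mem_Ioc]
      omega
    · rw [Finset.disjoint_left]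
      intro m hm hm2
      rw [mem_Ioc] at hm hm2
      omega

/-- extension of the range of the first variable -/
private theorem MINL_ext (a b : ℕ → ℂ) (y B X U Z : ℕ) (α : ℝ) (hX : y + B ≤ X) (hZ : X ≤ Z)
    (ha : ∀ m, 0 < m → m ≤ U → a m = 0) :
    ∑ m ∈ Ioc 0 X, MINL_F a b y B X α m = ∑ m ∈ Ioc U Z, MINL_F a b y B X α m := by
  have h1 : ∑ m ∈ Ioc 0 X, MINL_F a b y B X α m = ∑ m ∈ Ioc 0 Z, MINL_F a b y B X α m := by
    refine sum_subset (fun m hm => ?_) fun m hm hm2 => ?_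
    · rw [mem_Ioc] at hm ⊢
      omega
    · rw [mem_Ioc] at hm hm2
      unfold MINL_F
      refine sum_eq_zero fun k hk => ?_
      rw [mem_Ioc] at hk
      rw [if_neg]
      rintro ⟨_, h3⟩
      have h4 : m ≤ m * k := Nat.le_mul_of_pos_right _ hk.1
      omega
  rw [h1]
  symm
  refine sum_subset (fun m hm => ?_) fun m hm hm2 => ?_
  · rw [mem_Ioc] at hm ⊢
    omega
  · rw [mem_Ioc] at hm hm2
    unfold MINL_F
    refine sum_eq_zero fun k hk => ?_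
    rw [ha m hm.1 (by omega)]
    simp

/-- the coefficients of the bilinear sums -/
private noncomputable def MINL_a1 (U V : ℕ) (m : ℕ) : ℂ :=
  if U < m ∧ m ≤ V then (((moebius m : ℤ) : ℝ) : ℂ) else 0

private noncomputable def MINL_b1 (U X : ℕ) (L : ℝ) (k : ℕ) : ℂ :=
  if k ≤ X then ((ga U k / L : ℝ) : ℂ) else 0

private noncomputable def MINL_b2 (V : ℕ) (k : ℕ) : ℂ :=
  if V < k then (((moebius k : ℤ) : ℝ) : ℂ) else 0

/-- the bilinear sum -/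
private theorem MINL_S3 (U V X B y I : ℕ) (L α : ℝ) (hL : L ≠ 0) (hUV : U ≤ V) (hX : y + B ≤ X)
    (hI : X ≤ 2 ^ I * U) (hga : ∀ k, 1 ≤ k → k ≤ U → ga U k = 0) :
    ∑ n ∈ Ioc y (y + B), ((∑ d ∈ n.divisors.filter (fun d => U < d),
        ((moebius d : ℤ) : ℝ) * ga U (n / d) : ℝ) : ℂ) * ee (n * α) =
      (L : ℂ) * (∑ m ∈ Ioc U (2 ^ I * U), MINL_F (MINL_a1 U V) (MINL_b1 U X L) y B X α m +
        ∑ m ∈ Ioc U (2 ^ I * U), MINL_F (MINL_b1 U X L) (MINL_b2 V) y B X α m) := by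
  have hLc : (L : ℂ) ≠ 0 := by exact_mod_cast hL
  have e1 : ∑ n ∈ Ioc y (y + B), ((∑ d ∈ n.divisors.filter (fun d => U < d),
        ((moebius d : ℤ) : ℝ) * ga U (n / d) : ℝ) : ℂ) * ee (n * α) =
      ∑ n ∈ Ioc y (y + B), ∑ d ∈ n.divisors,
        (fun d k : ℕ => if U < d then ((((moebius d : ℤ) : ℝ) : ℂ) * (ga U k : ℂ)) *
          ee (((d * k : ℕ) : ℝ) * α) else 0) d (n / d) := by
    refine sum_congr rfl fun n _ => ?_
    push_cast
    rw [sum_mul, sum_filter]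
    refine sum_congr rfl fun d hd => ?_
    have h1 : d * (n / d) = n := Nat.mul_div_cancel' (Nat.dvd_of_mem_divisors hd)
    by_cases h : U < d
    · simp only [h, if_true]
      rw [← Nat.cast_mul, h1]
    · simp only [h, if_false]
  rw [e1, MINL_swp (fun d k : ℕ => if U < d then ((((moebius d : ℤ) : ℝ) : ℂ) * (ga U k : ℂ)) *
          ee (((d * k : ℕ) : ℝ) * α) else 0) X B y hX]
  rw [← MINL_ext _ _ y B X U _ α hX hI (fun m hm hm2 => ?_),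
    ← MINL_ext _ _ y B X U _ α hX hI (fun m hm hm2 => ?_)]
  · have e2 : ∑ m ∈ Ioc 0 X, MINL_F (MINL_b1 U X L) (MINL_b2 V) y B X α m =
        ∑ d ∈ Ioc 0 X, ∑ k ∈ Ioc 0 X, (if y < d * k ∧ d * k ≤ y + B then
          MINL_b1 U X L k * MINL_b2 V d * ee (((d * k : ℕ) : ℝ) * α) else 0) := by
      unfold MINL_F
      rw [sum_comm]
      refine sum_congr rfl fun d _ => sum_congr rfl fun k _ => ?_
      rw [Nat.mul_comm k d]
    rw [e2]
    unfold MINL_F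
    rw [← sum_add_distrib, mul_sum]
    refine sum_congr rfl fun d hd => ?_
    rw [← sum_add_distrib, mul_sum]
    refine sum_congr rfl fun k hk => ?_
    rw [mem_Ioc] at hd hk
    by_cases h : y < d * k ∧ d * k ≤ y + B
    · simp only [h, and_self, if_true]
      unfold MINL_a1 MINL_b1 MINL_b2
      rw [if_pos hk.2]
      push_cast
      by_cases h1 : U < d
      · by_cases h2 : d ≤ V
        · rw [if_pos h1, if_pos ⟨h1, h2⟩, if_neg (by omega : ¬ V < d)]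
          field_simp
          ring
        · rw [if_pos h1, if_neg (fun hh => h2 hh.2), if_pos (by omega : V < d)]
          field_simp
          ring
      · rw [if_neg h1, if_neg (fun hh => h1 hh.1), if_neg (by omega : ¬ V < d)]
        ring
    · simp only [h, if_false]
      ring
  · unfold MINL_b1
    split_ifs
    · rw [hga m hm hm2]
      simp
    · rfl
  · unfold MINL_a1
    rw [if_neg (by omega)]

/-- a block without terms -/
private theorem MINL_blk0 (a b : ℕ → ℂ) (M Y B y : ℕ) (α : ℝ) (hy : y + B ≤ 3 * Y)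
    (hab : ∀ m k, M < m → m * k ≤ 3 * Y → a m * b k = 0) : BW a b M Y B y α = 0 := by
  unfold BW
  refine sum_eq_zero fun m hm => sum_eq_zero fun k hk => ?_
  rw [mem_Ioc] at hm
  rw [mem_filter] at hk
  rw [hab m k hm.1 (hk.2.2.trans hy), zero_mul]

private theorem MINL_mu (m : ℕ) : ‖(((moebius m : ℤ) : ℝ) : ℂ)‖ ≤ 1 := by
  rw [Complex.norm_real, Real.norm_eq_abs, ← Int.cast_abs]
  exact_mod_cast abs_moebius_le_one

private theorem MINL_na (U V m : ℕ) : ‖MINL_a1 U V m‖ ≤ 1 := by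
  unfold MINL_a1
  split_ifs
  · exact MINL_mu m
  · simp

private theorem MINL_nb2 (V m : ℕ) : ‖MINL_b2 V m‖ ≤ 1 := by
  unfold MINL_b2
  split_ifs
  · exact MINL_mu m
  · simp

private theorem MINL_nb1 (h2 : VID_stmt) (U X : ℕ) (L : ℝ) (hL0 : 0 < L)
    (hL : ∀ k : ℕ, 1 ≤ k → k ≤ X → Real.log k ≤ L) (k : ℕ) : ‖MINL_b1 U X L k‖ ≤ 1 := by
  unfold MINL_b1
  split_ifs with h
  · rw [Complex.norm_real, Real.norm_eq_abs, abs_div, abs_of_pos hL0]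
    rcases Nat.eq_zero_or_pos k with h0 | h0
    · subst h0
      have : ga U 0 = 0 := by unfold ga; simp
      rw [this]
      simp
    · obtain ⟨_, _, _, h3, h4⟩ := h2 U k h0
      rw [abs_of_nonneg h3, div_le_one hL0]
      exact h4.trans (hL k h0 h)
  · simp

private theorem MINL_S3b (h2 : VID_stmt) (Y B I : ℕ) (α R : ℝ) (hY : 1 ≤ Y) (hB : B ≤ Y)
    (hI : 3 * Y ≤ 2 ^ I * Nat.sqrt (Nat.sqrt Y)) (hR : 0 ≤ R)
    (hT : ∀ M : ℕ, Y ≤ 16 * M ^ 4 → M ^ 2 ≤ 9 * Y → ∀ a b : ℕ → ℂ, (∀ m, ‖a m‖ ≤ 1) →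
      (∀ k, ‖b k‖ ≤ 1) → ∑ y ∈ Ico Y (2 * Y), ‖BW a b M Y B y α‖ ^ 2 ≤ R) :
    ∑ y ∈ Ico Y (2 * Y), ‖∑ n ∈ Ioc y (y + B),
      ((∑ d ∈ n.divisors.filter (fun d => Nat.sqrt (Nat.sqrt Y) < d),
        ((moebius d : ℤ) : ℝ) * ga (Nat.sqrt (Nat.sqrt Y)) (n / d) : ℝ) : ℂ) * ee (n * α)‖ ^ 2 ≤
      4 * Real.log (3 * Y) ^ 2 * (I : ℝ) ^ 2 * R := by
  have hVdef : ∃ V, V = Nat.sqrt Y := ⟨_, rfl⟩
  obtain ⟨V, hV⟩ := hVdef
  have hUdef : ∃ U, U = Nat.sqrt (Nat.sqrt Y) := ⟨_, rfl⟩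
  obtain ⟨U, hU⟩ := hUdef
  rw [← hU] at hI ⊢
  rw [← hV] at hU
  have hY0 : (1 : ℝ) ≤ Y := by exact_mod_cast hY
  have hLdef : ∃ L, L = Real.log (3 * Y) := ⟨_, rfl⟩
  obtain ⟨L, hL⟩ := hLdef
  rw [← hL]
  have hL0 : 0 < L := by
    rw [hL]
    exact Real.log_pos (by linarith)
  have hVY : V ^ 2 ≤ Y := hV ▸ Nat.sqrt_le' Y
  have hYV : Y < (V + 1) ^ 2 := hV ▸ Nat.lt_succ_sqrt' Y
  have hUV2 : U ^ 2 ≤ V := hU ▸ Nat.sqrt_le' V
  have hVU : V < (U + 1) ^ 2 := hU ▸ Nat.lt_succ_sqrt' V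
  have hV1 : 1 ≤ V := by
    rcases Nat.eq_zero_or_pos V with h | h
    · rw [h] at hYV; omega
    · exact h
  have hU1 : 1 ≤ U := by
    rcases Nat.eq_zero_or_pos U with h | h
    · rw [h] at hVU; omega
    · exact h
  have hUV : U ≤ V := by nlinarith
  have hYU : Y ≤ 16 * U ^ 4 := by
    have h1 : (V + 1) ^ 2 ≤ ((U + 1) ^ 2) ^ 2 := Nat.pow_le_pow_left (by omega) 2
    have h3 : (U + 1) ^ 4 ≤ (2 * U) ^ 4 := Nat.pow_le_pow_left (by omega) 4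
    have h4 : ((U + 1) ^ 2) ^ 2 = (U + 1) ^ 4 := by ring
    have h5 : (2 * U) ^ 4 = 16 * U ^ 4 := by ring
    omega
  have hLk : ∀ k : ℕ, 1 ≤ k → k ≤ 3 * Y → Real.log k ≤ L := by
    intro k hk hk2
    rw [hL]
    refine Real.log_le_log (by exact_mod_cast hk) ?_
    exact_mod_cast hk2
  have hga : ∀ k, 1 ≤ k → k ≤ U → ga U k = 0 := fun k hk hk2 => (h2 U k hk).2.2.1 hk2
  have hMi : ∀ i : ℕ, U ≤ 2 ^ i * U := fun i => Nat.le_mul_of_pos_left _ (Nat.two_pow_pos i)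
  have hb1 : ∀ i ∈ range I, ∑ y ∈ Ico Y (2 * Y),
      ‖BW (MINL_a1 U V) (MINL_b1 U (3 * Y) L) (2 ^ i * U) Y B y α‖ ^ 2 ≤ R := by
    intro i _
    by_cases h : (2 ^ i * U) ^ 2 ≤ 9 * Y
    · exact hT _ (hYU.trans (Nat.mul_le_mul_left 16 (Nat.pow_le_pow_left (hMi i) 4))) h _ _
        (MINL_na U V) (MINL_nb1 h2 U _ L hL0 hLk)
    · rw [sum_eq_zero]
      · exact hR
      intro y hy
      rw [mem_Ico] at hy
      rw [MINL_blk0 _ _ _ _ _ _ _ (by omega)]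
      · simp
      · intro m k hm _
        unfold MINL_a1
        rw [if_neg, zero_mul]
        rintro ⟨_, h3⟩
        have h4 : m ^ 2 ≤ V ^ 2 := Nat.pow_le_pow_left h3 2
        have h5 : (2 ^ i * U) ^ 2 ≤ m ^ 2 := Nat.pow_le_pow_left hm.le 2
        omega
  have hb2 : ∀ i ∈ range I, ∑ y ∈ Ico Y (2 * Y),
      ‖BW (MINL_b1 U (3 * Y) L) (MINL_b2 V) (2 ^ i * U) Y B y α‖ ^ 2 ≤ R := by
    intro i _
    by_cases h : (2 ^ i * U) ^ 2 ≤ 9 * Y
    · exact hT _ (hYU.trans (Nat.mul_le_mul_left 16 (Nat.pow_le_pow_left (hMi i) 4))) h _ _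
        (MINL_nb1 h2 U _ L hL0 hLk) (MINL_nb2 V)
    · rw [sum_eq_zero]
      · exact hR
      intro y hy
      rw [mem_Ico] at hy
      rw [MINL_blk0 _ _ _ _ _ _ _ (by omega)]
      · simp
      · intro m k hm hmk
        unfold MINL_b2
        rw [if_neg, mul_zero]
        intro hVk
        have h3 : (V + 1) ^ 2 ≤ k ^ 2 := Nat.pow_le_pow_left hVk 2
        have h5 : (2 ^ i * U) ^ 2 ≤ m ^ 2 := Nat.pow_le_pow_left hm.le 2
        have h6 : (m * k) ^ 2 ≤ (3 * Y) ^ 2 := Nat.pow_le_pow_left hmk 2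
        have h7 : (9 * Y + 1) * (Y + 1) ≤ m ^ 2 * k ^ 2 := Nat.mul_le_mul (by omega) (by omega)
        have h8 : (m * k) ^ 2 = m ^ 2 * k ^ 2 := by ring
        have h9 : (3 * Y) ^ 2 = 9 * Y * Y := by ring
        have h10 : (9 * Y + 1) * (Y + 1) = 9 * Y * Y + 10 * Y + 1 := by ring
        omega
  have hmain : ∀ y ∈ Ico Y (2 * Y), ‖∑ n ∈ Ioc y (y + B),
      ((∑ d ∈ n.divisors.filter (fun d => U < d),
        ((moebius d : ℤ) : ℝ) * ga U (n / d) : ℝ) : ℂ) * ee (n * α)‖ ^ 2 ≤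
      L ^ 2 * (I * ∑ i ∈ range I,
        (2 * ‖BW (MINL_a1 U V) (MINL_b1 U (3 * Y) L) (2 ^ i * U) Y B y α‖ ^ 2 +
        2 * ‖BW (MINL_b1 U (3 * Y) L) (MINL_b2 V) (2 ^ i * U) Y B y α‖ ^ 2)) := by
    intro y hy
    rw [mem_Ico] at hy
    rw [MINL_S3 U V (3 * Y) B y I L α hL0.ne' hUV (by omega) hI hga]
    rw [← MINL_dy, ← MINL_dy]
    have e1 : ∑ i ∈ range I, ∑ m ∈ Ioc (2 ^ i * U) (2 * (2 ^ i * U)),
        MINL_F (MINL_a1 U V) (MINL_b1 U (3 * Y) L) y B (3 * Y) α m =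
        ∑ i ∈ range I, BW (MINL_a1 U V) (MINL_b1 U (3 * Y) L) (2 ^ i * U) Y B y α :=
      sum_congr rfl fun i _ => (MINL_BW _ _ _ Y B y α (hU1.trans (hMi i)) (by omega)).symm
    have e2 : ∑ i ∈ range I, ∑ m ∈ Ioc (2 ^ i * U) (2 * (2 ^ i * U)),
        MINL_F (MINL_b1 U (3 * Y) L) (MINL_b2 V) y B (3 * Y) α m =
        ∑ i ∈ range I, BW (MINL_b1 U (3 * Y) L) (MINL_b2 V) (2 ^ i * U) Y B y α :=
      sum_congr rfl fun i _ => (MINL_BW _ _ _ Y B y α (hU1.trans (hMi i)) (by omega)).symm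
    rw [e1, e2, ← sum_add_distrib, norm_mul, mul_pow, Complex.norm_real, Real.norm_eq_abs, sq_abs]
    refine mul_le_mul_of_nonneg_left ?_ (sq_nonneg L)
    have h3 : ‖∑ i ∈ range I, (BW (MINL_a1 U V) (MINL_b1 U (3 * Y) L) (2 ^ i * U) Y B y α +
        BW (MINL_b1 U (3 * Y) L) (MINL_b2 V) (2 ^ i * U) Y B y α)‖ ^ 2 ≤
        (∑ i ∈ range I, ‖BW (MINL_a1 U V) (MINL_b1 U (3 * Y) L) (2 ^ i * U) Y B y α +
        BW (MINL_b1 U (3 * Y) L) (MINL_b2 V) (2 ^ i * U) Y B y α‖) ^ 2 :=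
      pow_le_pow_left₀ (norm_nonneg _) (norm_sum_le _ _) 2
    refine h3.trans (sq_sum_le_card_mul_sum_sq.trans ?_)
    rw [card_range]
    refine mul_le_mul_of_nonneg_left (sum_le_sum fun i _ => ?_) (Nat.cast_nonneg I)
    have h4 := norm_add_le (BW (MINL_a1 U V) (MINL_b1 U (3 * Y) L) (2 ^ i * U) Y B y α)
      (BW (MINL_b1 U (3 * Y) L) (MINL_b2 V) (2 ^ i * U) Y B y α)
    have h5 := pow_le_pow_left₀ (norm_nonneg _) h4 2
    refine h5.trans ?_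
    nlinarith [sq_nonneg (‖BW (MINL_a1 U V) (MINL_b1 U (3 * Y) L) (2 ^ i * U) Y B y α‖ -
      ‖BW (MINL_b1 U (3 * Y) L) (MINL_b2 V) (2 ^ i * U) Y B y α‖)]
  refine (sum_le_sum hmain).trans ?_
  rw [← mul_sum, ← mul_sum, sum_comm]
  have h3 : ∑ i ∈ range I, ∑ y ∈ Ico Y (2 * Y),
      (2 * ‖BW (MINL_a1 U V) (MINL_b1 U (3 * Y) L) (2 ^ i * U) Y B y α‖ ^ 2 +
        2 * ‖BW (MINL_b1 U (3 * Y) L) (MINL_b2 V) (2 ^ i * U) Y B y α‖ ^ 2) ≤
      ∑ i ∈ range I, 4 * R := by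
    refine sum_le_sum fun i hi => ?_
    rw [sum_add_distrib, ← mul_sum, ← mul_sum]
    have h4 := hb1 i hi
    have h5 := hb2 i hi
    linarith
  rw [sum_const, card_range, nsmul_eq_mul] at h3
  have h6 : L ^ 2 * ((I : ℝ) * ∑ i ∈ range I, ∑ y ∈ Ico Y (2 * Y),
      (2 * ‖BW (MINL_a1 U V) (MINL_b1 U (3 * Y) L) (2 ^ i * U) Y B y α‖ ^ 2 +
        2 * ‖BW (MINL_b1 U (3 * Y) L) (MINL_b2 V) (2 ^ i * U) Y B y α‖ ^ 2)) ≤
      L ^ 2 * ((I : ℝ) * (I * (4 * R))) :=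
    mul_le_mul_of_nonneg_left (mul_le_mul_of_nonneg_left h3 (Nat.cast_nonneg I)) (sq_nonneg L)
  refine h6.trans (le_of_eq ?_)
  ring

/-- the bound of the linear sums -/
private theorem MINL_lb (C₁ E' B' q' D' l W Lg T : ℝ) (hC₁ : 0 < C₁) (hl : 1 ≤ l) (hW : 0 < W)
    (hE : E' ≤ 2 * l) (hE0 : 0 ≤ E') (hB : 0 ≤ B') (h1 : 2 * B' / q' ≤ 2 * (B' / W)) (h2 : D' ≤ B' / W)
    (h3 : q' ≤ B' / W) (hLg : Lg ≤ 2 * l) (hLg0 : 0 ≤ Lg) (hT : T = 48 * C₁ * l ^ 2 * (B' / W)) :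
    2 * E' * (C₁ * (2 * B' / q' + D' + q') * (1 + Lg)) ≤ T := by
  have h0 : 0 ≤ B' / W := by positivity
  have h4 : C₁ * (2 * B' / q' + D' + q') ≤ C₁ * (4 * (B' / W)) :=
    mul_le_mul_of_nonneg_left (by linarith) hC₁.le
  have h5 : C₁ * (2 * B' / q' + D' + q') * (1 + Lg) ≤ C₁ * (4 * (B' / W)) * (3 * l) :=
    mul_le_mul h4 (by linarith) (by linarith) (by positivity)
  have h6 : 2 * E' * (C₁ * (2 * B' / q' + D' + q') * (1 + Lg)) ≤
      2 * E' * (C₁ * (4 * (B' / W)) * (3 * l)) := mul_le_mul_of_nonneg_left h5 (by positivity)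
  have h7 : 2 * E' * (C₁ * (4 * (B' / W)) * (3 * l)) ≤ 2 * (2 * l) * (C₁ * (4 * (B' / W)) * (3 * l)) :=
    mul_le_mul_of_nonneg_right (by linarith) (by positivity)
  refine h6.trans (h7.trans (le_of_eq ?_))
  rw [hT]
  ring

theorem MINL (h1 : T2_stmt) (h2 : VID_stmt) : MINL_stmt := by
  intro θ A hθ
  obtain ⟨θ', hθ'0, hθ'1, hθ'2⟩ : ∃ θ' : ℝ, 0 < θ' ∧ θ' ≤ 1 / 4 ∧ θ' ≤ θ :=
    ⟨min θ (1 / 4), lt_min hθ (by norm_num), min_le_right _ _, min_le_left _ _⟩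
  obtain ⟨C₂, Y₂, hC₂, hT⟩ := h1 θ' hθ'0 hθ'1
  obtain ⟨C₁, hC₁, hI⟩ := MINL_T1
  have ev1 : ∀ᶠ Y : ℕ in Filter.atTop, (13824 * C₁ ^ 2 + 1728 * (6 * C₂ + 1)) + 1 ≤ Real.log Y :=
    (Real.tendsto_log_atTop.comp tendsto_natCast_atTop_atTop).eventually_ge_atTop _
  have ev2 : ∀ᶠ Y : ℕ in Filter.atTop, Real.log Y ^ (2 * A + 13) ≤ (Y : ℝ) ^ θ' := by
    have h3 := (isLittleO_log_rpow_rpow_atTop ((2 * A + 13 : ℕ) : ℝ) hθ'0).bound
      (show (0 : ℝ) < 1 by norm_num)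
    have h4 := tendsto_natCast_atTop_atTop (R := ℝ) |>.eventually h3
    filter_upwards [h4, Filter.eventually_ge_atTop 3] with Y hY hY3
    have hl : 0 ≤ Real.log Y := Real.log_natCast_nonneg Y
    rw [Real.rpow_natCast, one_mul, Real.norm_of_nonneg (by positivity),
      Real.norm_of_nonneg (by positivity)] at hY
    exact hY
  obtain ⟨Y₀, hY₀⟩ := Filter.eventually_atTop.1 (ev1.and ev2)
  refine ⟨2 * A + 13, max (max Y₀ Y₂) 3, ?_⟩
  intro Y hY B hB hBY α a q hq hcop hα hq1 hq2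
  obtain ⟨hl1, hlW⟩ := hY₀ Y (by omega)
  have hYY₂ : Y₂ ≤ Y := by omega
  have hY3 : 3 ≤ Y := by omega
  have hY3r : (3 : ℝ) ≤ Y := by exact_mod_cast hY3
  obtain ⟨l, hl⟩ : ∃ l, l = Real.log Y := ⟨_, rfl⟩
  rw [← hl] at hl1 hlW hq1 hq2 ⊢
  have hl1' : 1 ≤ l := by nlinarith [sq_nonneg C₁]
  have hl0 : 0 < l := by linarith
  obtain ⟨W, hW⟩ : ∃ W, W = l ^ (2 * A + 13) := ⟨_, rfl⟩
  rw [← hW] at hlW hq1 hq2
  have hW1 : 1 ≤ W := hW ▸ one_le_pow₀ hl1'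
  have hW0 : 0 < W := by linarith
  have hq0 : (0 : ℝ) < q := by exact_mod_cast hq
  have hY0 : (0 : ℝ) < Y := by linarith
  have hBW : (Y : ℝ) ^ (1 / 2 + θ') ≤ B :=
    (Real.rpow_le_rpow_of_exponent_le (by linarith) (by linarith)).trans hB
  have hsq : √(Y : ℝ) * W ≤ B := by
    refine le_trans ?_ hBW
    rw [Real.rpow_add hY0, Real.sqrt_eq_rpow]
    exact mul_le_mul_of_nonneg_left hlW (by positivity)
  have hs1 : 1 ≤ √(Y : ℝ) := Real.one_le_sqrt.2 (by linarith)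
  have hB0 : (0 : ℝ) < B := lt_of_lt_of_le (by positivity) hsq
  have hqB : (q : ℝ) ≤ B / W := by rw [le_div_iff₀ hW0]; exact hq2
  have hBYr : (B : ℝ) ≤ Y := by exact_mod_cast hBY
  have hBWB : (B : ℝ) / W ≤ B := div_le_self hB0.le hW1
  have hqY : q ≤ Y := by
    have : (q : ℝ) ≤ Y := by linarith
    exact_mod_cast this
  obtain ⟨V, hV⟩ : ∃ V, V = Nat.sqrt Y := ⟨_, rfl⟩
  obtain ⟨U, hU⟩ : ∃ U, U = Nat.sqrt V := ⟨_, rfl⟩
  have hVY : V ^ 2 ≤ Y := hV ▸ Nat.sqrt_le' Y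
  have hYV : Y < (V + 1) ^ 2 := hV ▸ Nat.lt_succ_sqrt' Y
  have hUV2 : U ^ 2 ≤ V := hU ▸ Nat.sqrt_le' V
  have hVU : V < (U + 1) ^ 2 := hU ▸ Nat.lt_succ_sqrt' V
  have hV1 : 1 ≤ V := by
    rcases Nat.eq_zero_or_pos V with h | h
    · rw [h] at hYV; omega
    · exact h
  have hU1 : 1 ≤ U := by
    rcases Nat.eq_zero_or_pos U with h | h
    · rw [h] at hVU; omega
    · exact h
  have hUU2 : U ≤ U ^ 2 := by nlinarith
  have hVV2 : V ≤ V ^ 2 := by nlinarith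
  have hVs : (V : ℝ) ≤ √(Y : ℝ) := by
    refine Real.le_sqrt_of_sq_le ?_
    exact_mod_cast hVY
  have hVB : (V : ℝ) ≤ B / W := by
    rw [le_div_iff₀ hW0]
    exact (mul_le_mul_of_nonneg_right hVs hW0.le).trans hsq
  have hU2r : ((U ^ 2 : ℕ) : ℝ) ≤ V := by exact_mod_cast hUV2
  have hUr : ((U : ℕ) : ℝ) ≤ ((U ^ 2 : ℕ) : ℝ) := by exact_mod_cast hUU2
  have hU2B : U ^ 2 ≤ B := by
    have : ((U ^ 2 : ℕ) : ℝ) ≤ B := by linarith
    exact_mod_cast this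
  have hU2Y : U ^ 2 ≤ Y := hUV2.trans (hVV2.trans hVY)
  -- logarithms
  obtain ⟨L, hL⟩ : ∃ L, L = Real.log (3 * Y) := ⟨_, rfl⟩
  have hL0 : 0 < L := by
    rw [hL]
    exact Real.log_pos (by linarith)
  have hL2 : L ≤ 2 * l := by
    rw [hL, hl, Real.log_mul (by norm_num) (by positivity)]
    have := Real.log_le_log (by norm_num) hY3r
    linarith
  have hlogD : ∀ D : ℕ, 0 < D → D ≤ Y → Real.log ((q : ℝ) * D) ≤ 2 * l ∧ 0 ≤ Real.log ((q : ℝ) * D) := by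
    intro D hD hDY
    have hD0 : (0 : ℝ) < D := by exact_mod_cast hD
    rw [Real.log_mul hq0.ne' hD0.ne', hl]
    have h3 := Real.log_le_log hq0 (show (q : ℝ) ≤ Y by exact_mod_cast hqY)
    have h4 := Real.log_le_log hD0 (show (D : ℝ) ≤ Y by exact_mod_cast hDY)
    have h5 := Real.log_natCast_nonneg q
    have h6 := Real.log_natCast_nonneg D
    constructor <;> linarith
  have hBq : 2 * (B : ℝ) / q ≤ 2 * (B / W) := by
    rw [mul_div_assoc]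
    exact mul_le_mul_of_nonneg_left (div_le_div_of_nonneg_left hB0.le hW0 hq1) (by norm_num)
  obtain ⟨T, hTd⟩ : ∃ T, T = 48 * C₁ * l ^ 2 * ((B : ℝ) / W) := ⟨_, rfl⟩
  have hlogmono : ∀ i j : ℕ, i ≤ j → Real.log (i : ℝ) ≤ Real.log (j : ℝ) := by
    intro i j hij
    rcases Nat.eq_zero_or_pos i with h0 | h0
    · subst h0
      simp only [Nat.cast_zero, Real.log_zero]
      exact Real.log_natCast_nonneg j
    · exact Real.log_le_log (by exact_mod_cast h0) (by exact_mod_cast hij)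
  -- the two linear sums
  have hS1 : ∀ y ∈ Ico Y (2 * Y), ‖∑ n ∈ Ioc y (y + B), ((∑ d ∈ n.divisors.filter (fun d => d ≤ U),
      ((moebius d : ℤ) : ℝ) * Real.log ((n / d : ℕ) : ℝ) : ℝ) : ℂ) * ee (n * α)‖ ≤ T := by
    intro y hy
    rw [mem_Ico] at hy
    have h3 := hI (fun k => Real.log (k : ℝ)) (fun d => ((moebius d : ℤ) : ℝ)) 1 L B y U (3 * Y) q α a
      (fun i j hij => hlogmono i j hij) (by simp) (by rw [hL]; push_cast; exact le_rfl)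
      (fun d _ => by
        have := MINL_mu d
        rw [Complex.norm_real, Real.norm_eq_abs] at this
        exact this) hq (by omega) (by omega) (by omega) hcop hα
    refine h3.trans ?_
    rw [mul_one]
    obtain ⟨h4, h5⟩ := hlogD U (by omega) (by omega)
    exact MINL_lb C₁ L B q U l W _ T hC₁ hl1' hW0 hL2 hL0.le hB0.le hBq (by linarith) hqB h4 h5 hTd
  have hS2 : ∀ y ∈ Ico Y (2 * Y), ‖∑ n ∈ Ioc y (y + B), ((∑ d ∈ n.divisors.filter (fun d => d ≤ U ^ 2),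
      eU U d : ℝ) : ℂ) * ee (n * α)‖ ≤ T := by
    intro y hy
    rw [mem_Ico] at hy
    have h3 := hI (fun _ => 1) (fun d => eU U d) L 1 B y (U ^ 2) (3 * Y) q α a
      (fun i j hij => le_rfl) (by norm_num) le_rfl
      (fun d hd => by
        rw [mem_Ioc] at hd
        refine (h2 U d (by omega)).2.1.trans ?_
        rw [hL]
        refine Real.log_le_log (by exact_mod_cast hd.1) ?_
        have : d ≤ 3 * Y := by omega
        exact_mod_cast this) hq (by omega) (by omega) (by omega) hcop hα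
    simp only [mul_one] at h3
    refine h3.trans ?_
    obtain ⟨h4, h5⟩ := hlogD (U ^ 2) (by omega) (by omega)
    exact MINL_lb C₁ L B q _ l W _ T hC₁ hl1' hW0 hL2 hL0.le hB0.le hBq (by linarith) hqB h4 h5 hTd
  -- the bilinear sum
  obtain ⟨K, hK⟩ : ∃ K, K = 6 * C₂ + 1 := ⟨_, rfl⟩
  have hK1 : 1 ≤ K := by linarith
  obtain ⟨R, hR⟩ : ∃ R, R = K * (Y : ℝ) * (B : ℝ) ^ 2 / l ^ (A + 6) := ⟨_, rfl⟩
  have hR0 : 0 ≤ R := by rw [hR]; positivity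
  have hTM : ∀ M : ℕ, Y ≤ 16 * M ^ 4 → M ^ 2 ≤ 9 * Y → ∀ a b : ℕ → ℂ, (∀ m, ‖a m‖ ≤ 1) →
      (∀ k, ‖b k‖ ≤ 1) → ∑ y ∈ Ico Y (2 * Y), ‖BW a b M Y B y α‖ ^ 2 ≤ R := by
    intro M hM1 hM2 a' b' ha hb
    have h3 := hT Y hYY₂ B M hBW hBY hM1 hM2 a' b' ha hb α a q hq hqY hcop hα
    rw [← hl] at h3
    have h4 : 1 / (q : ℝ) ≤ 1 / W := one_div_le_one_div_of_le hW0 hq1
    have h5 : (q : ℝ) / B ≤ 1 / W := by
      rw [div_le_div_iff₀ hB0 hW0]
      linarith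
    have h6 : (Y : ℝ) ^ (-θ') ≤ 1 / W := by
      rw [Real.rpow_neg hY0.le, ← one_div]
      exact one_div_le_one_div_of_le hW0 hlW
    have h7 : C₂ * (Y : ℝ) ^ 2 * (B : ℝ) ^ 4 * (1 + l) * (1 / q + q / B + (Y : ℝ) ^ (-θ')) ≤
        C₂ * (Y : ℝ) ^ 2 * (B : ℝ) ^ 4 * (2 * l) * (3 / W) := by
      refine mul_le_mul (mul_le_mul_of_nonneg_left (by linarith) (by positivity)) ?_ (by positivity)
        (by positivity)
      have : 3 / W = 1 / W + 1 / W + 1 / W := by ring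
      linarith
    have h8 : C₂ * (Y : ℝ) ^ 2 * (B : ℝ) ^ 4 * (2 * l) * (3 / W) ≤ R ^ 2 := by
      rw [hR, hW]
      have e1 : C₂ * (Y : ℝ) ^ 2 * (B : ℝ) ^ 4 * (2 * l) * (3 / l ^ (2 * A + 13)) =
          6 * C₂ * ((Y : ℝ) ^ 2 * (B : ℝ) ^ 4 / l ^ (2 * A + 12)) := by
        have : l ^ (2 * A + 13) = l ^ (2 * A + 12) * l := by rw [← pow_succ]
        rw [this]
        field_simp
        ring
      have e2 : (K * (Y : ℝ) * (B : ℝ) ^ 2 / l ^ (A + 6)) ^ 2 =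
          K ^ 2 * ((Y : ℝ) ^ 2 * (B : ℝ) ^ 4 / l ^ (2 * A + 12)) := by
        have : l ^ (2 * A + 12) = (l ^ (A + 6)) ^ 2 := by rw [← pow_mul]; congr 1; ring
        rw [this]
        field_simp
      rw [e1, e2]
      refine mul_le_mul_of_nonneg_right ?_ (by positivity)
      nlinarith
    exact (pow_le_pow_iff_left₀ (sum_nonneg fun _ _ => by positivity) hR0 (by norm_num)).1
      (h3.trans (h7.trans h8))
  obtain ⟨I, hId⟩ : ∃ I, I = Nat.log 2 (3 * Y) + 1 := ⟨_, rfl⟩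
  have hI1 : 3 * Y ≤ 2 ^ I * Nat.sqrt (Nat.sqrt Y) := by
    have h3 : 3 * Y < 2 ^ I := by
      rw [hId]
      exact Nat.lt_pow_succ_log_self (by norm_num) _
    rw [← hV, ← hU]
    exact h3.le.trans (Nat.le_mul_of_pos_right _ hU1)
  have hI2 : (I : ℝ) ≤ 6 * l := by
    have h3 : 2 ^ (Nat.log 2 (3 * Y)) ≤ 3 * Y := Nat.pow_log_le_self 2 (by omega)
    have h4 : ((2 : ℝ)) ^ (Nat.log 2 (3 * Y)) ≤ 3 * Y := by exact_mod_cast h3
    have h5 := Real.log_le_log (by positivity) h4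
    rw [Real.log_pow, ← hL] at h5
    have h6 := Real.log_two_gt_d9
    rw [hId]
    push_cast
    have h7 : (0 : ℝ) ≤ (Nat.log 2 (3 * Y) : ℝ) := Nat.cast_nonneg _
    nlinarith
  have hS3 := MINL_S3b h2 Y B I α R (by omega) hBY hI1 hR0 hTM
  rw [← hL, ← hV, ← hU] at hS3
  -- the identity
  have hid : ∀ y ∈ Ico Y (2 * Y), Sw (fun n => vonMangoldt n) B y α =
      ∑ n ∈ Ioc y (y + B), ((∑ d ∈ n.divisors.filter (fun d => d ≤ U),
        ((moebius d : ℤ) : ℝ) * Real.log ((n / d : ℕ) : ℝ) : ℝ) : ℂ) * ee (n * α) -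
      ∑ n ∈ Ioc y (y + B), ((∑ d ∈ n.divisors.filter (fun d => d ≤ U ^ 2), eU U d : ℝ) : ℂ) *
        ee (n * α) +
      ∑ n ∈ Ioc y (y + B), ((∑ d ∈ n.divisors.filter (fun d => U < d),
        ((moebius d : ℤ) : ℝ) * ga U (n / d) : ℝ) : ℂ) * ee (n * α) := by
    intro y hy
    rw [mem_Ico] at hy
    unfold Sw
    rw [← sum_sub_distrib, ← sum_add_distrib]
    refine sum_congr rfl fun n hn => ?_
    rw [mem_Ioc] at hn
    have h3 := (h2 U n (by omega)).1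
    rw [if_neg (by omega : ¬ n ≤ U), zero_add] at h3
    rw [← sub_mul, ← add_mul]
    congr 1
    beta_reduce
    rw [h3]
    push_cast
    ring
  have hpt : ∀ y ∈ Ico Y (2 * Y), ‖Sw (fun n => vonMangoldt n) B y α‖ ^ 2 ≤
      6 * T ^ 2 + 3 * ‖∑ n ∈ Ioc y (y + B), ((∑ d ∈ n.divisors.filter (fun d => U < d),
        ((moebius d : ℤ) : ℝ) * ga U (n / d) : ℝ) : ℂ) * ee (n * α)‖ ^ 2 := by
    intro y hy
    rw [hid y hy]
    have h3 := hS1 y hy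
    have h4 := hS2 y hy
    obtain ⟨z1, hz1⟩ : ∃ z1, z1 = ∑ n ∈ Ioc y (y + B), ((∑ d ∈ n.divisors.filter (fun d => d ≤ U),
      ((moebius d : ℤ) : ℝ) * Real.log ((n / d : ℕ) : ℝ) : ℝ) : ℂ) * ee (n * α) := ⟨_, rfl⟩
    obtain ⟨z2, hz2⟩ : ∃ z2, z2 = ∑ n ∈ Ioc y (y + B), ((∑ d ∈ n.divisors.filter (fun d => d ≤ U ^ 2),
      eU U d : ℝ) : ℂ) * ee (n * α) := ⟨_, rfl⟩
    obtain ⟨z3, hz3⟩ : ∃ z3, z3 = ∑ n ∈ Ioc y (y + B), ((∑ d ∈ n.divisors.filter (fun d => U < d),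
      ((moebius d : ℤ) : ℝ) * ga U (n / d) : ℝ) : ℂ) * ee (n * α) := ⟨_, rfl⟩
    rw [← hz1] at h3 ⊢
    rw [← hz2] at h4 ⊢
    rw [← hz3]
    have h5 : ‖z1 - z2 + z3‖ ≤ 2 * T + ‖z3‖ := by
      refine (norm_add_le _ _).trans ?_
      have := norm_sub_le z1 z2
      linarith
    have h6 := pow_le_pow_left₀ (norm_nonneg _) h5 2
    refine h6.trans ?_
    nlinarith [sq_nonneg (T - ‖z3‖)]
  unfold WS
  refine (sum_le_sum hpt).trans ?_
  rw [sum_add_distrib, ← mul_sum, ← mul_sum, sum_const, Nat.card_Ico, nsmul_eq_mul]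
  have hcard : ((2 * Y - Y : ℕ) : ℝ) = Y := by
    have : 2 * Y - Y = Y := by omega
    rw [this]
  rw [hcard]
  -- the last computation
  obtain ⟨x, hx⟩ : ∃ x, x = (Y : ℝ) * (B : ℝ) ^ 2 / l ^ A := ⟨_, rfl⟩
  have hx0 : 0 ≤ x := by rw [hx]; positivity
  have hT2 : (Y : ℝ) * T ^ 2 ≤ 2304 * C₁ ^ 2 / l * x := by
    have e1 : (Y : ℝ) * T ^ 2 = 2304 * C₁ ^ 2 * (Y : ℝ) * (B : ℝ) ^ 2 * (l ^ 4 / W ^ 2) := by
      rw [hTd]
      field_simp
      ring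
    have e2 : 2304 * C₁ ^ 2 / l * x = 2304 * C₁ ^ 2 * (Y : ℝ) * (B : ℝ) ^ 2 * (1 / l ^ (A + 1)) := by
      rw [hx]
      field_simp
      ring
    rw [e1, e2]
    refine mul_le_mul_of_nonneg_left ?_ (by positivity)
    rw [div_le_div_iff₀ (by positivity) (by positivity), one_mul, hW, ← pow_add, ← pow_mul]
    exact pow_le_pow_right₀ hl1' (by omega)
  have hS3' : 4 * L ^ 2 * (I : ℝ) ^ 2 * R ≤ 576 * K / l * x := by
    have h3 : L ^ 2 ≤ (2 * l) ^ 2 := pow_le_pow_left₀ hL0.le hL2 2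
    have h4 : (I : ℝ) ^ 2 ≤ (6 * l) ^ 2 := pow_le_pow_left₀ (Nat.cast_nonneg I) hI2 2
    have h5 : 4 * L ^ 2 * (I : ℝ) ^ 2 * R ≤ 4 * (2 * l) ^ 2 * (6 * l) ^ 2 * R :=
      mul_le_mul_of_nonneg_right (mul_le_mul (by linarith) h4 (by positivity) (by positivity)) hR0
    refine h5.trans ?_
    have e1 : 4 * (2 * l) ^ 2 * (6 * l) ^ 2 * R = 576 * K * (Y : ℝ) * (B : ℝ) ^ 2 * (l ^ 4 / l ^ (A + 6)) := by
      rw [hR]
      field_simp
      ring
    have e2 : 576 * K / l * x = 576 * K * (Y : ℝ) * (B : ℝ) ^ 2 * (1 / l ^ (A + 1)) := by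
      rw [hx]
      field_simp
      ring
    rw [e1, e2]
    refine mul_le_mul_of_nonneg_left ?_ (by positivity)
    rw [div_le_div_iff₀ (by positivity) (by positivity), one_mul, ← pow_add]
    exact pow_le_pow_right₀ hl1' (by omega)
  rw [← hx]
  have hfin : (13824 * C₁ ^ 2 + 1728 * K) / l * x ≤ x := by
    have h3 : (13824 * C₁ ^ 2 + 1728 * K) / l ≤ 1 := by
      rw [div_le_one hl0, hK]
      linarith
    nlinarith
  have e3 : (13824 * C₁ ^ 2 + 1728 * K) / l * x = 6 * (2304 * C₁ ^ 2 / l * x) + 3 * (576 * K / l * x) := by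
    ring
  linarith

end Pool.Agent.BQ
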